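import Pool.Agent.T2h56.TG.All2

/-! Inscribed rectangles of every aspect ratio in the Jordan curves that are the union of two arcs
which are monotone in one direction; in particular in the union of two continuous graphs.

The proof is a finite dimensional min-max argument (files in `Pool/Agent/T2h56/TG`), written by
helper56 with helper1, helper11, helper20, helper22, helper25, helper54, helper76 and helper83. -/

set_option autoImplicit false

namespace Pool.Agent.Results.MP_7ec17a_gt.AllRatiosTwoArcs

open Set Complex

/-- `c` parametrises a Jordan curve: it is continuous, has period `1` and is injective on `[0, 1)`. -/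
def Jordan (c : ℝ → ℂ) : Prop :=
  Continuous c ∧ (∀ t, c (t + 1) = c t) ∧ InjOn c (Ico 0 1)

/-- The curve is the union of two arcs that are monotone in the direction of `w`: on the parameter
interval `[p, q]` the scalar product of `w` and `c` never decreases, and on `[q, p + 1]` it never
increases. (It may be constant on parts of the arcs.) For a Jordan curve this says that the closed
region bounded by the curve has a connected intersection with each line orthogonal to `w`. -/
def TwoMonotoneArcs (c : ℝ → ℂ) (w : ℂ) : Prop := ∃ p q : ℝ, p < q ∧ q < p + 1 ∧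
  MonotoneOn (fun t => w.re * (c t).re + w.im * (c t).im) (Icc p q) ∧
  AntitoneOn (fun t => w.re * (c t).re + w.im * (c t).im) (Icc q (p + 1))

/-- The curve contains the four vertices of a nondegenerate rectangle whose side ratio is `r`: the
sides are `u` and `r i u`. -/
def HasRectangle (c : ℝ → ℂ) (r : ℝ) : Prop :=
  ∃ z u : ℂ, u ≠ 0 ∧ z ∈ range c ∧ z + u ∈ range c ∧ z + u + r * I * u ∈ range c ∧
    z + r * I * u ∈ range c

/-- A Jordan curve is injective on each half open interval of length `1`. -/
theorem injOn_shift {c : ℝ → ℂ} (hper : ∀ t, c (t + 1) = c t) (hinj : InjOn c (Ico 0 1)) (p : ℝ) :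
    InjOn (fun t => c (p + t)) (Ico 0 1) := by
  have hP : Function.Periodic c 1 := hper
  have hfr : ∀ x : ℝ, c (Int.fract x) = c x := by
    intro x
    have h := (hP.int_mul ⌊x⌋) (Int.fract x)
    rw [mul_one, Int.fract_add_floor] at h
    exact h.symm
  intro s hs t ht hst
  have h1 : c (Int.fract (p + s)) = c (Int.fract (p + t)) := by
    rw [hfr, hfr]
    exact hst
  have h2 := hinj ⟨Int.fract_nonneg _, Int.fract_lt_one _⟩ ⟨Int.fract_nonneg _, Int.fract_lt_one _⟩ h1
  obtain ⟨n, hn⟩ := Int.fract_eq_fract.1 h2
  have h3 : s - t = n := by linarith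
  have h4 : (n : ℝ) < 1 := by linarith [hs.2, ht.1]
  have h5 : (-1 : ℝ) < n := by linarith [hs.1, ht.2]
  have h6 : n < 1 := by exact_mod_cast h4
  have h7 : -1 < n := by exact_mod_cast h5
  have h8 : n = 0 := by omega
  rw [h8, Int.cast_zero] at h3
  linarith

/-- Every Jordan curve that is the union of two arcs which are monotone in a common direction
contains the four vertices of a nondegenerate rectangle of each aspect ratio. No regularity of the
arcs is supposed. For instance, the curve can be the union of the graphs of any two continuous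
functions `f < g` on an open interval which agree at its ends. -/
theorem result (c : ℝ → ℂ) (hc : Jordan c) (h : ∃ w : ℂ, w ≠ 0 ∧ TwoMonotoneArcs c w) :
    ∀ r : ℝ, 0 < r → HasRectangle c r := by
  intro r hr
  obtain ⟨hcont, hper, hinj⟩ := hc
  obtain ⟨w, hw, p, q, hpq, hqp, h1, h2⟩ := h
  have hre : ∀ z : ℂ, (starRingEnd ℂ w * z).re = w.re * z.re + w.im * z.im := by
    intro z
    rw [mul_re, conj_re, conj_im]
    ring
  have hw' : starRingEnd ℂ w ≠ 0 := by
    rwa [Ne, map_eq_zero]
  obtain ⟨z, u, hu, e0, e1, e2, e3⟩ := T2h56.TG.uni (fun t => starRingEnd ℂ w * c (p + t)) (q - p) r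
    hr (continuous_const.mul (hcont.comp (continuous_const.add continuous_id)))
    (fun t => by rw [← add_assoc, hper])
    (fun s hs t ht hst => injOn_shift hper hinj p hs ht (mul_left_cancel₀ hw' hst))
    (by linarith) (by linarith)
    (fun s hs t ht hst => by
      simp only [hre]
      exact h1 ⟨by linarith [hs.1], by linarith [hs.2]⟩ ⟨by linarith [ht.1], by linarith [ht.2]⟩
        (by linarith))
    (fun s hs t ht hst => by
      simp only [hre]
      exact h2 ⟨by linarith [hs.1], by linarith [hs.2]⟩ ⟨by linarith [ht.1], by linarith [ht.2]⟩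
        (by linarith))
  have key : ∀ x y : ℂ, x ∈ range (fun t => starRingEnd ℂ w * c (p + t)) →
      y = (starRingEnd ℂ w)⁻¹ * x → y ∈ range c := by
    rintro x y ⟨t, rfl⟩ rfl
    exact ⟨p + t, by simp only [inv_mul_cancel_left₀ hw']⟩
  refine ⟨(starRingEnd ℂ w)⁻¹ * z, (starRingEnd ℂ w)⁻¹ * u, mul_ne_zero (inv_ne_zero hw') hu,
    key _ _ e0 rfl, key _ _ e1 (by ring), key _ _ e2 (by ring), key _ _ e3 (by ring)⟩

end Pool.Agent.Results.MP_7ec17a_gt.AllRatiosTwoArcs
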